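import Pool.Agent.N179.TL.Fin

/-!
# The Tate conjecture for products of K3 surfaces of different heights over finite fields, and for
# their products with arbitrary varieties whose slopes are arithmetically independent

Let `X i` be K3 surfaces over a finite field of characteristic `p`, of finite heights `h i` and with
geometric Picard numbers `22 - b i`. (`IsK3Variety`: over a finite extension with `q` elements the
transcendental part of `H²(X i)`, of dimension `b i`, is the sum of eigenspaces of Frobenius of
dimension `ε` for the conjugates of `q α i`, all powers of `α i` generate a CM field `E i`, the
`p`-adic embeddings of `E i` with `|α i| > 1` belong to one place, of local degree `h i / ε`, and there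
`|α i| = q ^ (1 / h i)`. The Tate conjecture is known for `X i` and for `X i × X i`: Charles, Madapusi
Pera, Kim and Madapusi Pera; Ito, Ito and Koshikawa. Other varieties with cohomology of this type, for
instance cubic fourfolds, are allowed if the Tate conjecture holds for `X i` and in the middle
codimension for `X i × X i`.) Let `Z` be a product of `n i` copies of `X i`, for all `i`, and of
varieties all of whose cohomology is algebraic, for instance supersingular K3 surfaces.

Let `Γ` be a set of rational numbers which contains `0`. Suppose that `|a i| ≤ n i` and
`∑ a i / h i ∈ Γ` for integers `a i` only if all `a i` are zero; and that `n i ≤ 2`, or `n i = 3` and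
`(d i, m i) ∉ exceptionalPairs`, or `m i` is odd and `(d i, m i) ∉ exceptionalOddPairs`, where
`[E i : ℚ] = 2 d i` and `m i` is the local degree (these are the cases in which the Tate conjecture for
the powers `X i ^ (n i)` was known before, as far as the author knows).

**Theorem.** The Tate conjecture and the semisimplicity of Frobenius hold for `Z`, in all
codimensions. Moreover for **every** smooth projective variety `U` for which the slopes of Frobenius on
`H^w(U)`, `w` even, are in `w / 2 + Γ`, the Tate conjecture (with or without semisimplicity) for
`Z × U` in codimension `c` is equivalent to the same conjecture for `U` in codimension `c - i`, for all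
`i ≤ c` such that there is a homologically nontrivial cycle of codimension `i` on `Z`.

For example:
* `Γ` the integers: `U` is any ordinary variety, or any variety with integral slopes in even degrees,
  and `Z = X`, `X` a K3 surface of height `h > 1`, or `Z = X × X`, `h > 2`, or `Z` a product of two
  K3 surfaces of different heights greater than one;
* `Γ` the rational numbers with denominators prime to a prime number `ℓ` which divides `h`;
* `Γ = {0}`: products `Z = ∏ X i ^ (n i)` with pairwise coprime heights and `n i < h i`; `U` is any
  variety whose even cohomology is supersingular.

Second part. If `Γ = {0}` some of the indices may be linked: an index is `Isolated` if `a i = 0` for all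
solutions as above. For the indices which are not isolated we only assume that `n i ≤ 1`, that their
heights are different (and at most `11`, the ranks `b i` at most `23`, which is always true), and that
they do not contain three indices with `(h, b) = (2, 4), (3, 6), (6, 12)`. In particular:

**the Tate conjecture holds, in all codimensions, for every product of K3 surfaces over finite
fields with pairwise different heights** (with any number of supersingular factors), except possibly
if three of the factors have the heights `2, 3, 6` and the Picard numbers `18, 16, 10`.

The idea: if a product of conjugates of the `α i` and of a Frobenius eigenvalue of `U` is a power of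
`q` up to roots of unity, then for each `p`-adic embedding the slopes give a solution
`∑ a i / h i ∈ Γ`. For different heights at most `11` and `|a i| ≤ 1` the valuations at
`2, 3, 5, 7, 11` show that a nonzero solution of `∑ a i / h i = 0` contains `1/3` and `1/6` with the same
sign, and `1/2`; the proportion of the embeddings of `E i` with nonzero slopes is `2 h i / b i`, and it
would have to be the same for these three heights.
-/

set_option autoImplicit false

open CategoryTheory AlgebraicGeometry NumberField

universe u v

namespace Pool.Agent.Results.MP_021685_ag.K3SurfacesOfDifferentHeights

open Pool.Agent.H914 Pool.Agent.W534 Pool.Agent.TH132.A Pool.Agent.TH121.KT Pool.Agent.W517.K3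
  Pool.Agent.N179.TL VarClass Obj WeilCohomology

/-- **The Tate conjecture for products of K3 surfaces with independent or different heights, and for
their products with arbitrary varieties whose slopes are in `Γ`.** -/
theorem result {k : Type u} [Field k] {𝒱 : VarClass k} {ops : CycleOps 𝒱}
    (W : WeilCohomology.{u, v} ops) [IsAlgClosed W.K] (p : ℕ) [Fact p.Prime]
    (Φ : FrobSystem W p) {r : ℕ} (X : Fin r → 𝒱.Obj) (e : Fin r → ℕ)
    (E : Fin r → Type) [∀ i, Field (E i)] [∀ i, NumberField (E i)] [∀ i, IsCMField (E i)]
    (α : ∀ i, E i) (h b n : Fin r → ℕ)
    (hX : ∀ i, IsK3Variety Φ (X i) (e i) (α i) (h i) (b i))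
    (Γ : Set ℚ) (hΓ : (0 : ℚ) ∈ Γ)
    (hA : Admissible Γ h b (fun i => Module.finrank ℚ (E i) / 2)
      (fun i => localDegree p (α i)) n)
    (Z : 𝒱.Obj) (hZ : IsProductOfCopies W X n Z) :
    (∀ c, SemisimpleTateIn Φ Z c) ∧
    ∀ U : 𝒱.Obj, SlopesIn Φ Γ U → ∀ c,
      (TateIn Φ (Z.prod U) c ↔
        ∀ i ≤ c, (∃ x, Z.IsCyc i x ∧ ¬ HomEq W x 0) → TateIn Φ U (c - i)) ∧
      (SemisimpleTateIn Φ (Z.prod U) c ↔
        ∀ i ≤ c, (∃ x, Z.IsCyc i x ∧ ¬ HomEq W x 0) → SemisimpleTateIn Φ U (c - i)) :=
  final hX hΓ hA hZ

end Pool.Agent.Results.MP_021685_ag.K3SurfacesOfDifferentHeights
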