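import Mathlib
import Pool.Agent.N534.HC.Tate

/-!
# The pole of the L-function of `H^{2j}` of products of random curves over a number field

`K` is any number field, `C_{i,c} : y² = F_i(c_i; x)`, `i ∈ R`, `|R| = r`, are hyperelliptic curves over `K` with integer parameters `c_i`, independent for
the different `i`: `F_i(c; x)` is a polynomial in `x` whose coefficients are polynomials over `𝓞 K` in the parameters, a scaling
`c_l → G^{wt_l} c_l` twists the curve: `F_i(G c; G^a x) = G^e F_i(c; x)` with `e` odd, and some member is nonsingular and of full degree. Examples: all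
polynomials of degree `d` and all linear systems of polynomials (`wt = 1`, `a = 0`, `e = 1`), all curves `y² = x³ + A x + B` (weights `2`, `3`, `a = 1`,
`e = 3`), with parameters in `ℤ` or in `𝓞 K`, written in an integral basis.

`X_c = ∏_{i ∈ R} C_{i,c}`. The classes of the products of `j` points and `r - j` curves give rank `C(r, j)` in `A^j(X_c)`; if there are no nonzero homomorphisms between
the Jacobians, their rings of endomorphisms are `ℤ`, and the Galois representations are generic, this is the rank of `A^j(X_c)`. So for almost all `c` the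
problem predicts that `L(s)` of `H^{2j}(X_c)` has a pole of order exactly `C(r, j)` at `s₀ = j + 1` (`dim_a(K) = 1`), i.e. that the quotient of
`L(s)` by `ζ_K(s - j)^{C(r, j)}` is neither zero nor infinite at `s₀`. (The Euler factors at the places above the primes `p` with a bad place
above `p` are omitted in both functions.)

The theorem: the mean over the members `c`, all parameters of absolute value at most `H`, of the square of the supremum of
`|log (L(s) / ζ_K(s - j)^{C(r, j)})|` over the rectangle `s₀ + 1/log H ≤ Re s ≤ s₀ + 1`, `|Im s| ≤ T` is at most `C (1 + T)`, with `C`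
independent of `H` and `T`. So outside a proportion `δ` of the members the function `log |L(s)|` is `C(r, j) log |ζ_K(1 + ε)| + O((1/δ)^{1/2})`
(`ζ_K` without the omitted factors) at all real `s = s₀ + ε`, `1/log H ≤ ε ≤ 1`: the pole of order `C(r, j)` at `s₀` is visible at this
distance, and no further zeros and poles on the line `Re s = s₀`.
-/

set_option autoImplicit false

open NumberField IsDedekindDomain Polynomial

namespace Pool.Agent.Results.MP_223b32_ag.RandomProductsPole

section
variable {K : Type} [Field K] [NumberField K]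

/-- Number of affine points of `y² = g(x)` with coordinates in the extension of degree `m` of the finite field `k`, i.e. the field of the
elements of the algebraic closure of `k` which are fixed by the `m`-th power of the Frobenius of `k`. -/
noncomputable def affineCount (k : Type) [Field k] (g : k[X]) (m : ℕ) : ℕ :=
  Nat.card {P : AlgebraicClosure k × AlgebraicClosure k //
    P.1 ^ (Nat.card k ^ m) = P.1 ∧ P.2 ^ (Nat.card k ^ m) = P.2 ∧ P.2 ^ 2 = aeval P.1 g}

/-- Number of points at infinity of the smooth projective curve `y² = g(x)` over the extension of degree `m` of `k`: one if the degree of `g`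
is odd, and otherwise the number of square roots of the leading coefficient. -/
noncomputable def infinityCount (k : Type) [Field k] (g : k[X]) (m : ℕ) : ℕ :=
  if Odd g.natDegree then 1 else
    Nat.card {y : AlgebraicClosure k // y ^ (Nat.card k ^ m) = y ∧
      y ^ 2 = algebraMap k (AlgebraicClosure k) g.leadingCoeff}

/-- Trace of the `m`-th power of the Frobenius at `v` on `H¹` of the curve `y² = f(x)`: `q^m + 1` minus the number of its points over the
field with `q^m` elements, `q = N v`. -/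
noncomputable def trace (f : (𝓞 K)[X]) (v : HeightOneSpectrum (𝓞 K)) (m : ℕ) : ℤ :=
  haveI : v.asIdeal.IsMaximal := v.isMaximal
  letI : Field (𝓞 K ⧸ v.asIdeal) := Ideal.Quotient.field v.asIdeal
  ((Ideal.absNorm v.asIdeal : ℕ) : ℤ) ^ m + 1 -
    (affineCount (𝓞 K ⧸ v.asIdeal) (f.map (Ideal.Quotient.mk v.asIdeal)) m +
      infinityCount (𝓞 K ⧸ v.asIdeal) (f.map (Ideal.Quotient.mk v.asIdeal)) m)

/-- Good reduction: `v` does not divide `2` and the reduction of `f` is separable, of degree `d`. -/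
def Good (f : (𝓞 K)[X]) (d : ℕ) (v : HeightOneSpectrum (𝓞 K)) : Prop :=
  (2 : 𝓞 K) ∉ v.asIdeal ∧ (f.map (Ideal.Quotient.mk v.asIdeal)).natDegree = d ∧
    (f.map (Ideal.Quotient.mk v.asIdeal)).Separable

/-- The trace of the `k`-th power of the Frobenius at `v` on `H^{2j}(∏_i C_i)`, `C_i : y² = f_i(x)`, by Künneth's formula: the coefficient of `t^{2j}`
in `∏_i (1 + tr(A_i^k) t + N v^k t²)`. -/
noncomputable def traceProduct {R : Type} [Fintype R] (j : ℕ) (f : R → (𝓞 K)[X]) (v : HeightOneSpectrum (𝓞 K)) (k : ℕ) : ℝ :=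
  PowerSeries.coeff (2 * j) (∏ i, (1 + PowerSeries.C ((trace (f i) v k : ℤ) : ℝ) * PowerSeries.X +
    PowerSeries.C (((Ideal.absNorm v.asIdeal : ℕ) : ℝ) ^ k) * PowerSeries.X ^ 2 : PowerSeries ℝ))

/-- The trace on `H^{2j}` minus the trace `C(r, j) N v^{jk}` on the classes of the products of points and curves. -/
noncomputable def quotientTrace {R : Type} [Fintype R] (j : ℕ) (f : R → (𝓞 K)[X]) (v : HeightOneSpectrum (𝓞 K)) (k : ℕ) : ℝ :=
  traceProduct j f v k - ((Fintype.card R).choose j : ℝ) * (((Ideal.absNorm v.asIdeal : ℕ) : ℝ) ^ k) ^ j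

open Classical in
/-- The sum over the places `v` above `p`, of residue degree `f_v` dividing `k`, of `f_v` times the local trace of the power `k / f_v`. -/
noncomputable def frobTrace (t : HeightOneSpectrum (𝓞 K) → ℕ → ℝ) (p k : ℕ) : ℝ :=
  ∑ᶠ v : {v : HeightOneSpectrum (𝓞 K) // (p : 𝓞 K) ∈ v.asIdeal},
    if Nat.log p (Ideal.absNorm v.1.asIdeal) ∣ k then
      (Nat.log p (Ideal.absNorm v.1.asIdeal) : ℝ) * t v.1 (k / Nat.log p (Ideal.absNorm v.1.asIdeal))
    else 0

open Classical in
/-- The logarithm `∑ (frobTrace t p k) p^{-ks} / k` of the product of the Euler factors at the places above `p`, for local traces `t`; it is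
omitted if one of these places is not good. -/
noncomputable def logFactor (t : HeightOneSpectrum (𝓞 K) → ℕ → ℝ) (G : HeightOneSpectrum (𝓞 K) → Prop)
    (s : ℂ) (p : ℕ) : ℂ :=
  if ∃ v : HeightOneSpectrum (𝓞 K), (p : 𝓞 K) ∈ v.asIdeal ∧ ¬ G v then 0 else
    ∑' k : ℕ, (frobTrace t p (k + 1) : ℂ) / ((k : ℂ) + 1) * (p : ℂ) ^ (-(((k : ℂ) + 1) * s))

/-- The logarithm of the L-function. -/
noncomputable def logL (t : HeightOneSpectrum (𝓞 K) → ℕ → ℝ) (G : HeightOneSpectrum (𝓞 K) → Prop) (s : ℂ) : ℂ :=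
  ∑' p : Nat.Primes, logFactor t G s (p : ℕ)

/-- The L-function: the product of the Euler factors. -/
noncomputable def LSeries (t : HeightOneSpectrum (𝓞 K) → ℕ → ℝ) (G : HeightOneSpectrum (𝓞 K) → Prop) (s : ℂ) : ℂ :=
  ∏' p : Nat.Primes, Complex.exp (logFactor t G s (p : ℕ))

variable {J : Type} [Fintype J] [DecidableEq J]

/-- The member `F(c; x)` of the family. -/
noncomputable def member (F : (MvPolynomial J (𝓞 K))[X]) (c : J → ℤ) : (𝓞 K)[X] :=
  F.map (MvPolynomial.eval (fun j => ((c j : ℤ) : 𝓞 K)))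

/-- `log (L(s) / ζ_K(s - j)^{C(r, j)})` for the member `c`. -/
noncomputable def logQuotient {R : Type} [Fintype R] (j : ℕ) (F : R → (MvPolynomial J (𝓞 K))[X]) (c : R × J → ℤ) (s : ℂ) : ℂ :=
  logL (quotientTrace j (fun i => member (F i) (fun l => c (i, l))))
    (fun v => ∀ i, Good (member (F i) (fun l => c (i, l))) (F i).natDegree v) s

/-- `L(s) / ζ_K(s - j)^{C(r, j)}` for the member `c`. -/
noncomputable def quotient {R : Type} [Fintype R] (j : ℕ) (F : R → (MvPolynomial J (𝓞 K))[X]) (c : R × J → ℤ) (s : ℂ) : ℂ :=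
  LSeries (quotientTrace j (fun i => member (F i) (fun l => c (i, l))))
    (fun v => ∀ i, Good (member (F i) (fun l => c (i, l))) (F i).natDegree v) s

/-- The integer vectors with coordinates of absolute value at most `H`. -/
noncomputable def box (ι : Type) [Fintype ι] [DecidableEq ι] (H : ℕ) : Finset (ι → ℤ) :=
  Fintype.piFinset fun _ => Finset.Icc (-(H : ℤ)) H

/-- The rectangle `j + 1 + 1/log H ≤ Re s ≤ j + 2`, `|Im s| ≤ T`. -/
def rectangle (j H : ℕ) (T : ℝ) : Set ℂ :=
  {s | (j : ℝ) + 1 + 1 / Real.log H ≤ s.re ∧ s.re ≤ j + 2 ∧ |s.im| ≤ T}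

/-- **The pole of the L-function of `H^{2j}` of products of random curves over a number field.** -/
theorem result {R : Type} [Fintype R] [DecidableEq R] [Nonempty R] (F : R → (MvPolynomial J (𝓞 K))[X])
    (hF : ∀ i, 1 ≤ (F i).natDegree)
    (hc : ∀ i, ∃ c : J → ℤ, (member (F i) c).natDegree = (F i).natDegree ∧
      ((member (F i) c).map (algebraMap (𝓞 K) K)).Separable)
    (wt : R → J → ℕ) (a e : R → ℕ) (he : ∀ i, Odd (e i))
    (hs : ∀ (i : R) (G : ℤ) (c : J → ℤ), (member (F i) (fun l => G ^ wt i l * c l)).comp (C ((G : 𝓞 K) ^ a i) * X) =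
      C ((G : 𝓞 K) ^ e i) * member (F i) c)
    (j : ℕ) :
    (∀ (c : R × J → ℤ) (s : ℂ), (j : ℝ) + 1 < s.re → quotient j F c s = Complex.exp (logQuotient j F c s)) ∧
    ∃ C : ℝ, 0 < C ∧ ∀ H : ℕ, 2 ≤ H → ∀ T : ℝ, 0 ≤ T →
      (∀ X ⊆ box (R × J) H, ∀ s : (R × J → ℤ) → ℂ, (∀ c ∈ X, s c ∈ rectangle j H T) →
        ∑ c ∈ X, ‖logQuotient j F c (s c)‖ ^ 2 ≤ C * (1 + T) * (box (R × J) H).card) ∧
      (∀ δ : ℝ, 0 < δ → ∃ X ⊆ box (R × J) H, (X.card : ℝ) ≤ δ * (box (R × J) H).card ∧
        ∀ c ∈ box (R × J) H \ X, ∀ s ∈ rectangle j H T, ‖logQuotient j F c s‖ ≤ Real.sqrt (C * (1 + T) / δ)) := by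
  have hAdm := Pool.Agent.N534.HC.Tate.adm_ind F (fun i => ⟨hF i, hc i⟩)
  have hodd := Pool.Agent.N534.HC.Tate.oddMon_ind F (wt := wt) (a := a) (e := e) hs he (2 * j)
  obtain ⟨D, hD⟩ := Pool.Agent.N534.HC.powH (Pool.Agent.N534.HC.Tate.Tc_hasWt (R := R) (2 * j)) hAdm hodd
  have hcmp := Pool.Agent.N534.HC.Inst.cmpH (2 * j) (Pool.Agent.N534.HC.Tate.Tc R (2 * j)) (Pool.Agent.N534.HC.Tate.ind F)
  have hmem : ∀ (c : R × J → ℤ) (i : R), Pool.Agent.N534.HC.mem (Pool.Agent.N534.HC.Tate.ind F i) c =
      member (F i) (fun l => c (i, l)) := fun c i => Pool.Agent.N534.HC.Tate.mem_ind F i c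
  have ht : (fun c : R × J → ℤ => quotientTrace j (fun i => member (F i) (fun l => c (i, l)))) =
      Pool.Agent.N534.HC.Inst.tH (Pool.Agent.N534.HC.Tate.Tc R (2 * j)) (Pool.Agent.N534.HC.Tate.ind F) := by
    funext c v k
    unfold quotientTrace traceProduct Pool.Agent.N534.HC.Inst.tH Pool.Agent.N534.HC.chv
    rw [Pool.Agent.N534.HC.Tate.Tc_eval, if_pos (even_two_mul j), Nat.mul_div_cancel_left j (by norm_num : 0 < 2)]
    have h1 : ∀ i : R, Pool.Agent.N534.HC.vals v (fun i => Pool.Agent.N534.HC.rmem (Pool.Agent.N534.HC.Tate.ind F i) v c) k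
        (some (i, 0)) = ((trace (member (F i) (fun l => c (i, l))) v k : ℤ) : ℝ) := by
      intro i
      have h2 := Pool.Agent.N534.HC.Inst.trace_eq (member (F i) (fun l => c (i, l))) v k
      change ((Pool.Agent.N534.HC.trv v (Pool.Agent.N534.HC.rmem (Pool.Agent.N534.HC.Tate.ind F i) v c)
        (k * (0 + 1)) : ℤ) : ℝ) = ((Pool.Agent.N534.HC.Inst.trace (member (F i) (fun l => c (i, l))) v k : ℤ) : ℝ)
      rw [h2, zero_add, mul_one]
      unfold Pool.Agent.N534.HC.rmem
      rw [hmem]
    simp only [h1]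
    rfl
  have hg : (fun (c : R × J → ℤ) (v : HeightOneSpectrum (𝓞 K)) => ∀ i, Good (member (F i) (fun l => c (i, l))) (F i).natDegree v) =
      Pool.Agent.N534.HC.Inst.gH (Pool.Agent.N534.HC.Tate.ind F) := by
    funext c v
    apply propext
    unfold Pool.Agent.N534.HC.Inst.gH
    refine forall_congr' fun i => ?_
    unfold Pool.Agent.N534.HC.Gdv Good Pool.Agent.N534.HC.rmem
    rw [hmem, Pool.Agent.N534.HC.Tate.deg_ind]
  have hL : ∀ (c : R × J → ℤ) (s : ℂ), logQuotient j F c s = Pool.Agent.N534.HC.St.logL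
      (Pool.Agent.N534.HC.Inst.tH (Pool.Agent.N534.HC.Tate.Tc R (2 * j)) (Pool.Agent.N534.HC.Tate.ind F) c)
      (Pool.Agent.N534.HC.Inst.gH (Pool.Agent.N534.HC.Tate.ind F) c) s := by
    intro c s
    have h1 := congrFun ht c
    have h2 := congrFun hg c
    unfold logQuotient
    rw [← h1, ← h2]
    rfl
  have hQ : ∀ (c : R × J → ℤ) (s : ℂ), quotient j F c s = Pool.Agent.N534.HC.St.LSeries
      (Pool.Agent.N534.HC.Inst.tH (Pool.Agent.N534.HC.Tate.Tc R (2 * j)) (Pool.Agent.N534.HC.Tate.ind F) c)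
      (Pool.Agent.N534.HC.Inst.gH (Pool.Agent.N534.HC.Tate.ind F) c) s := by
    intro c s
    have h1 := congrFun ht c
    have h2 := congrFun hg c
    unfold quotient
    rw [← h1, ← h2]
    rfl
  have hrect : ∀ (H : ℕ) (T : ℝ), rectangle j H T = Pool.Agent.N534.HC.St.rectangle (2 * j) H T := by
    intro H T
    unfold rectangle Pool.Agent.N534.HC.St.rectangle
    have h1 : ((2 * j : ℕ) : ℝ) / 2 = j := by push_cast; ring
    rw [h1]
    ext s
    simp only [Set.mem_setOf_eq]
    rw [add_comm (j : ℝ) 1, add_comm (j : ℝ) 2]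
  simp only [hrect, hL, hQ]
  refine ⟨fun c s hs' => ?_, ?_⟩
  · exact Pool.Agent.N534.HC.St.LSeries_eq hcmp hD c s (by push_cast; linarith)
  · exact Pool.Agent.N534.HC.St.avgC hcmp hD

end

end Pool.Agent.Results.MP_223b32_ag.RandomProductsPole
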